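import Mathlib
import Pool.Agent.Work.MP_787500_nt.KR.Defs

/-!
The local Euler characteristic of modules killed by 2: definitions (fixed, do not change).
-/

set_option autoImplicit false
set_option linter.unusedSectionVars false

namespace Pool.Agent.Work.MP_787500_nt.EU

open Pool.Agent.Work.MP_787500_nt.GP (A0 IsAct)

section defs

variable {D : Type*} {U : Type*} [AddCommGroup U]

/-- the invariant homomorphisms to `ZMod 2` -/
def invD (υ : D → U → U) : AddSubgroup (U →+ ZMod 2) where
  carrier := {l | ∀ g u, l (υ g u) = l u}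
  add_mem' := by
    intro a b ha hb g u
    rw [AddMonoidHom.add_apply, AddMonoidHom.add_apply, ha, hb]
  zero_mem' := fun _ _ => rfl
  neg_mem' := by
    intro a ha g u
    rw [AddMonoidHom.neg_apply, AddMonoidHom.neg_apply, ha]

theorem mem_invD {υ : D → U → U} {l : U →+ ZMod 2} : l ∈ invD υ ↔ ∀ g u, l (υ g u) = l u := Iff.rfl

/-- a simple module -/
structure Simp (υ : D → U → U) : Prop where
  nt : Nontrivial U
  sub : ∀ A : AddSubgroup U, (∀ g, ∀ a ∈ A, υ g a ∈ A) → A = ⊥ ∨ A = ⊤

end defs

end Pool.Agent.Work.MP_787500_nt.EU
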