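import Mathlib
import Pool.Agent.Work.MP_787500_nt.EU.Defs
import Pool.Agent.Work.MP_787500_nt.KR.LD4
import Pool.Agent.Work.MP_787500_nt.KR.F06
import Pool.Agent.Work.MP_787500_nt.KR.ADefs
import Pool.Agent.Work.MP_787500_nt.GP.F01_Card

/-!
# Additivity of the Euler characteristic of modules killed by 2

For an exact sequence `0 → A → B → C → 0` of finite modules killed by 2 the numbers of cocycles and of invariant
homomorphisms satisfy `card Z1(B) card invD(A) card invD(C) = card Z1(A) card Z1(C) card invD(B)` (`add_seq`): the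
connecting map `Z1(C) → H2(A)` and the map `invD(A) → H1(C*)` are adjoint for the local duality.
-/

set_option autoImplicit false
set_option linter.unusedSectionVars false

namespace Pool.Agent.Work.MP_787500_nt.EU

open Pool.Agent.Work.MP_787500_nt.GP (A0 half hf hf_zero hf_add hf_inj smul_hf IsAct d0 d1 d2 tw cup11
  cup02 perpL card_perp)
open Pool.Agent.Work.MP_787500_nt.KR (FSys LocB LocH LocD LDual Pair Smooth Z1 Z2 B2 Sm1 Sm2 big Opn
  IsChar z1s mem_z1s cup11_Z2 locD_of)

universe u v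

section sys

variable {G : Type*} [Group G] {F : FSys G} {U : Type*} [AddCommGroup U] {υ : G → U → U}

theorem card_two_pow [Finite U] (h2 : ∀ u : U, u + u = 0) : ∃ k : ℕ, Nat.card U = 2 ^ k := by
  have h1 : IsPGroup 2 (Multiplicative U) := by
    intro g
    refine ⟨1, ?_⟩
    rw [pow_one, pow_two]
    exact h2 (Multiplicative.toAdd g)
  have hp : Fact (Nat.Prime 2) := ⟨Nat.prime_two⟩
  exact (IsPGroup.iff_card (p := 2) (G := Multiplicative U)).1 h1

theorem z1_one (h : IsAct υ) {x : G → U} (hx : ∀ a b, x (a * b) = x a + υ a (x b)) : x 1 = 0 := by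
  have h1 := hx 1 1
  rw [one_mul, h.one] at h1
  exact left_eq_add.1 h1

/-- The cocycles for `big F N` if `N` acts trivially. -/
theorem z1_big [Finite U] {N : Subgroup G} (hN : N.Normal) (hop : Opn F N)
    (h2 : ∀ u : U, u + u = 0) (h : IsAct υ) (htr : ∀ g ∈ N, ∀ m, υ g m = m) {x : G → U} :
    Z1 (big F N) υ x ↔ Z1 F υ x := by
  constructor
  · rintro ⟨⟨W, ⟨-, ⟨V, hV, hVW⟩, -⟩, h1⟩, h2⟩
    exact ⟨⟨V, hV, fun g w hw => h1 g w (hVW hw)⟩, h2⟩
  · rintro ⟨⟨W, hW, h1⟩, hx⟩
    refine ⟨?_, hx⟩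
    obtain ⟨V, hV, hVN⟩ := hop
    have hx1 : x 1 = 0 := z1_one h hx
    let φ : N →* Multiplicative U :=
      { toFun := fun g => Multiplicative.ofAdd (x g)
        map_one' := by
          show Multiplicative.ofAdd (x 1) = 1
          rw [hx1]
          rfl
        map_mul' := fun a b => by
          show Multiplicative.ofAdd (x (a * b)) = _
          rw [hx, htr a a.2]
          rfl }
    have hk : ∀ a : N, a ∈ φ.ker ↔ x a = 0 := fun a => Iff.rfl
    let W' : Subgroup G := φ.ker.map N.subtype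
    have hW' : ∀ g, g ∈ W' ↔ g ∈ N ∧ x g = 0 := by
      intro g
      constructor
      · rintro ⟨a, ha, rfl⟩
        exact ⟨a.2, (hk a).1 ha⟩
      · rintro ⟨hg, hg'⟩
        exact ⟨⟨g, hg⟩, (hk _).2 hg', rfl⟩
    refine ⟨W', ⟨⟨fun w hw g => ?_⟩, ⟨W ⊓ V, F.inf hW hV, fun g hg => ?_⟩, ?_⟩, fun g w hw => ?_⟩
    · rw [hW'] at hw ⊢
      refine ⟨hN.conj_mem w hw.1 g, ?_⟩
      have h3 : x g + υ g (x g⁻¹) = 0 := by rw [← hx, mul_inv_cancel, hx1]
      rw [hx, hx, hw.2, h.zero, add_zero, h.mul, htr w hw.1, h3]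
    · rw [hW']
      refine ⟨hVN hg.2, ?_⟩
      have h3 := h1 1 g hg.1
      rw [one_mul, hx1] at h3
      exact h3
    · have h4 : W'.relIndex N = φ.ker.index := by
        show (W'.subgroupOf N).index = _
        congr 1
        ext a
        rw [Subgroup.mem_subgroupOf, hW', hk]
        exact ⟨fun h => h.2, fun h => ⟨a.2, h⟩⟩
      rw [h4, Subgroup.index_ker]
      have h5 : Nat.card φ.range ∣ Nat.card (Multiplicative U) :=
        Subgroup.card_subgroup_dvd_card _
      obtain ⟨m, hm⟩ := card_two_pow (U := U) h2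
      have h6 : Nat.card (Multiplicative U) = 2 ^ m := hm
      rw [h6] at h5
      obtain ⟨k, -, hk⟩ := (Nat.dvd_prime_pow Nat.prime_two).1 h5
      exact ⟨k, hk⟩
    · rw [hx, ((hW' w).1 hw).2, h.zero, add_zero]

/-- the kernel of an action -/
def kerA (h : IsAct υ) : Subgroup G where
  carrier := {g | ∀ m, υ g m = m}
  mul_mem' := by
    intro a b ha hb m
    rw [h.mul, hb, ha]
  one_mem' := h.one
  inv_mem' := by
    intro a ha m
    conv_lhs => rw [← ha m]
    rw [← h.mul, inv_mul_cancel, h.one]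

theorem mem_kerA {h : IsAct υ} {g : G} : g ∈ kerA h ↔ ∀ m, υ g m = m := Iff.rfl

theorem kerA_normal (h : IsAct υ) : (kerA h).Normal := by
  refine ⟨fun n hn g m => ?_⟩
  rw [h.mul, h.mul, mem_kerA.1 hn, ← h.mul, mul_inv_cancel, h.one]

theorem kerA_opn (h : IsAct υ) (hs : Smooth F υ) : Opn F (kerA h) := by
  obtain ⟨W, hW, h1⟩ := hs
  exact ⟨W, hW, fun w hw m => h1 w hw m⟩

theorem big_self {N : Subgroup G} (hN : N.Normal) (hop : Opn F N) : (big F N).mem N :=
  ⟨hN, hop, 0, by simp⟩

end sys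

section lin

variable {U V : Type*} [AddCommGroup U] [AddCommGroup V]

/-- an additive section of a surjective map -/
theorem exists_sec (h2 : ∀ u : U, u + u = 0) (p : U →+ V) (hp : Function.Surjective p) :
    ∃ s : V →+ U, ∀ v, p (s v) = v := by
  have h2' : ∀ v : V, v + v = 0 := by
    intro v
    obtain ⟨u, rfl⟩ := hp v
    rw [← map_add, h2, map_zero]
  let _ : Module (ZMod 2) U := AddCommGroup.zmodModule fun u => by rw [two_nsmul, h2]
  let _ : Module (ZMod 2) V := AddCommGroup.zmodModule fun u => by rw [two_nsmul, h2']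
  obtain ⟨s, hs⟩ := (p.toZModLinearMap 2).exists_rightInverse_of_surjective
    (LinearMap.range_eq_top.2 hp)
  exact ⟨s.toAddMonoidHom, fun v => LinearMap.congr_fun hs v⟩

/-- the homomorphisms to `ZMod 2` separate the elements -/
theorem exists_sep (h2 : ∀ u : U, u + u = 0) {u : U} (h : ∀ l : U →+ ZMod 2, l u = 0) : u = 0 := by
  let _ : Module (ZMod 2) U := AddCommGroup.zmodModule fun u => by rw [two_nsmul, h2]
  exact (Module.forall_dual_apply_eq_zero_iff (ZMod 2) u).1 fun φ => h φ.toAddMonoidHom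

/-- `hf` as a homomorphism -/
noncomputable def hfh : ZMod 2 →+ A0 := AddMonoidHom.mk' hf hf_add

/-- the evaluation pairing -/
noncomputable def evB (U : Type*) [AddCommGroup U] : (U →+ ZMod 2) →+ U →+ A0 :=
  AddMonoidHom.mk' (fun l => hfh.comp l) (fun l l' => by
    ext u
    exact hf_add _ _)

theorem evB_apply (l : U →+ ZMod 2) (u : U) : evB U l u = hf (l u) := rfl

variable {D : Type*} [Group D]

/-- the dual action -/
def dl {υ : D → U → U} (h : IsAct υ) : D → (U →+ ZMod 2) → (U →+ ZMod 2) := fun g l =>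
  l.comp (AddMonoidHom.mk' (υ g⁻¹) (h.add g⁻¹))

theorem dl_apply {υ : D → U → U} (h : IsAct υ) (g : D) (l : U →+ ZMod 2) (u : U) :
    dl h g l u = l (υ g⁻¹ u) := rfl

theorem dl_act {υ : D → U → U} (h : IsAct υ) : IsAct (dl h) where
  one l := by
    ext u
    rw [dl_apply, inv_one, h.one]
  mul g k l := by
    ext u
    rw [dl_apply, dl_apply, dl_apply, mul_inv_rev, h.mul]
  add g l l' := rfl

theorem ev_pair {F : FSys D} {N : Subgroup D} {χ : D → ℤ_[2]} (hχ : IsChar (big F N) χ)
    (hN : N.Normal) (hop : Opn F N) {υ : D → U → U} (h : IsAct υ) (h2 : ∀ u : U, u + u = 0)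
    (htr : ∀ g ∈ N, ∀ m, υ g m = m) : Pair (big F N) χ (dl h) υ (evB U) where
  act := dl_act h
  act' := h
  sm := ⟨N, big_self hN hop, fun w hw l => by
    ext u
    rw [dl_apply, htr _ (N.inv_mem hw)]⟩
  sm' := ⟨N, big_self hN hop, htr⟩
  eqv g l u := by
    rw [evB_apply, evB_apply, dl_apply, ← h.mul, inv_mul_cancel, h.one, smul_hf (hχ.odd g)]
  nd l hl := by
    ext u
    exact hf_inj (by rw [← evB_apply, hl]; exact hf_zero.symm)
  nd' u hu := exists_sep h2 fun l => hf_inj (by rw [← evB_apply, hu, hf_zero])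

end lin

section add

variable {D : Type u} [Group D] {F : FSys D} {χ : D → ℤ_[2]} {inv : (D → D → A0) → A0}

/-- finiteness -/
theorem finZ (hB : ∀ N, LocB F N χ inv) {U : Type v} [AddCommGroup U] [Finite U] {υ : D → U → U}
    (h : IsAct υ) (hs : Smooth F υ) (h2 : ∀ u : U, u + u = 0) : Finite {x : D → U // Z1 F υ x} := by
  have hN := kerA_normal h
  have hop := kerA_opn h hs
  have hU : Finite (U →+ ZMod 2) := Finite.of_injective (fun l : U →+ ZMod 2 => (l : U → ZMod 2))
    DFunLike.coe_injective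
  have LD := locD_of.{v} (hB (kerA h)) hN hop
  have hp := (LD.ld (ev_pair LD.char hN hop h h2 fun g hg => hg)).fin'
  exact Finite.of_equiv _ (Equiv.subtypeEquivRight fun x => z1_big hN hop h2 h fun g hg => hg)

private theorem ad_card {X Y : Type*} [AddCommGroup X] [AddCommGroup Y] (f : X →+ Y) :
    Nat.card X = Nat.card f.ker * Nat.card f.range := by
  rw [AddSubgroup.card_eq_card_quotient_mul_card_addSubgroup f.ker,
    Nat.card_congr (QuotientAddGroup.quotientKerEquivRange f).toEquiv, mul_comm]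

theorem add_seq (hB : ∀ N, LocB F N χ inv) {A B C : Type v} [AddCommGroup A] [Finite A]
    [AddCommGroup B] [Finite B] [AddCommGroup C] [Finite C] {α : D → A → A} {β : D → B → B}
    {γ : D → C → C} (ha : IsAct α) (hb : IsAct β) (hc : IsAct γ) (hs : Smooth F β)
    (h2 : ∀ b : B, b + b = 0) (i : A →+ B) (p : B →+ C) (hi : Function.Injective i)
    (hp : Function.Surjective p) (hk : ∀ b, p b = 0 ↔ ∃ a, i a = b)
    (ei : ∀ g a, i (α g a) = β g (i a)) (ep : ∀ g b, p (β g b) = γ g (p b)) :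
    Nat.card {x : D → B // Z1 F β x} * (Nat.card (invD α) * Nat.card (invD γ)) =
      Nat.card {x : D → A // Z1 F α x} * Nat.card {x : D → C // Z1 F γ x} *
        Nat.card (invD β) := by
  classical
  set N := kerA hb with hNdef
  have hN : N.Normal := kerA_normal hb
  have hop : Opn F N := kerA_opn hb hs
  set S := big F N with hS
  have LD : LocD.{v} S χ inv := locD_of.{v} (hB N) hN hop
  have tB : ∀ g ∈ N, ∀ m, β g m = m := fun g hg => hg
  have tA : ∀ g ∈ N, ∀ m, α g m = m := fun g hg m => hi (by rw [ei, tB g hg])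
  have tC : ∀ g ∈ N, ∀ m, γ g m = m := fun g hg m => by
    obtain ⟨b, rfl⟩ := hp m
    rw [← ep, tB g hg]
  have h2A : ∀ a : A, a + a = 0 := fun a => hi (by rw [map_add, h2, map_zero])
  have h2C : ∀ c : C, c + c = 0 := fun c => by
    obtain ⟨b, rfl⟩ := hp c
    rw [← map_add, h2, map_zero]
  have hfA : Finite (A →+ ZMod 2) := Finite.of_injective
    (fun l : A →+ ZMod 2 => (l : A → ZMod 2)) DFunLike.coe_injective
  have hfC : Finite (C →+ ZMod 2) := Finite.of_injective
    (fun l : C →+ ZMod 2 => (l : C → ZMod 2)) DFunLike.coe_injective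
  have pA := ev_pair (F := F) LD.char hN hop ha h2A tA
  have pC := ev_pair (F := F) LD.char hN hop hc h2C tC
  have zA : ∀ x, Z1 S α x ↔ Z1 F α x := fun x => z1_big hN hop h2A ha tA
  have zB : ∀ x, Z1 S β x ↔ Z1 F β x := fun x => z1_big hN hop h2 hb tB
  have zC : ∀ x, Z1 S γ x ↔ Z1 F γ x := fun x => z1_big hN hop h2C hc tC
  have hχ : ∀ (g : D) (a : ZMod 2), χ g • hf a = hf a := fun g a => smul_hf (LD.char.odd g) a
  have neg2 : ∀ a : ZMod 2, -a = a := by decide
  -- the section
  obtain ⟨s, hs'⟩ := exists_sec h2 p hp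
  have hcc : ∀ g n, ∃ a, i a = β g (s n) - s (γ g n) := fun g n => (hk _).1 (by
    rw [map_sub, ep, hs', hs', sub_self])
  choose c hc' using hcc
  have cadd : ∀ g n n', c g (n + n') = c g n + c g n' := fun g n n' => hi (by
    rw [map_add, hc', hc', hc', map_add, hb.add, hc.add, map_add]
    abel)
  have cmul : ∀ g k n, c (g * k) n = α g (c k n) + c g (γ k n) := fun g k n => hi (by
    rw [map_add, hc', ei, hc', hc', hb.sub, hb.mul, hc.mul]
    abel)
  have cN : ∀ g ∈ N, ∀ n, c g n = 0 := fun g hg n => hi (by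
    rw [hc', tB g hg, tC g hg, sub_self, map_zero])
  have cinv : ∀ (l : A →+ ZMod 2), l ∈ invD α → ∀ a n, l (c a⁻¹ (γ a n)) = l (c a n) := by
    intro l hl a n
    have h1 := cmul a⁻¹ a n
    rw [inv_mul_cancel, cN 1 N.one_mem] at h1
    have h3 := congrArg l h1
    rw [map_zero, map_add, hl] at h3
    rw [← neg2 (l (c a n))]
    exact (neg_eq_of_add_eq_zero_right h3.symm).symm
  have cr : ∀ a, ∀ w ∈ N, ∀ n, c (a * w) n = c a n := fun a w hw n => by
    rw [cmul, cN w hw, tC w hw, ha.zero, zero_add]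
  have cl : ∀ a, ∀ w ∈ N, ∀ n, c (w * a) n = c a n := fun a w hw n => by
    rw [cmul, cN w hw, tA w hw, add_zero]
  -- the cocycle of an invariant functional
  let ψ : (A →+ ZMod 2) → D → (C →+ ZMod 2) := fun l g =>
    AddMonoidHom.mk' (fun n => l (c g⁻¹ n)) (fun n n' => by rw [cadd, map_add])
  have hψ : ∀ l g n, ψ l g n = l (c g⁻¹ n) := fun l g n => rfl
  have ψZ : ∀ l, l ∈ invD α → Z1 S (dl hc) (ψ l) := by
    intro l hl
    refine ⟨⟨N, big_self hN hop, fun g w hw => ?_⟩, fun a b => ?_⟩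
    · ext n
      rw [hψ, hψ, mul_inv_rev, cl _ _ (N.inv_mem hw)]
    · ext n
      show l (c (a * b)⁻¹ n) = l (c a⁻¹ n) + l (c b⁻¹ (γ a⁻¹ n))
      rw [mul_inv_rev, cmul, map_add, hl]
  have hcup : ∀ l, l ∈ invD α → ∀ x : D → C,
      cup11 γ (evB C) (ψ l) x = fun a b => hf (l (c a (x b))) := by
    intro l hl x
    funext a b
    show hf (l (c a⁻¹ (γ a (x b)))) = _
    rw [cinv l hl]
  have Zc : ∀ l, l ∈ invD α → ∀ x, Z1 S γ x → Z2 S (tw χ) (fun a b => hf (l (c a (x b)))) := by
    intro l hl x hx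
    rw [← hcup l hl]
    exact cup11_Z2 pC (ψZ l hl) hx
  -- the pairing
  let P : z1s S hc →+ invD α →+ A0 := AddMonoidHom.mk'
    (fun x => AddMonoidHom.mk' (fun l => inv (fun a b => hf (l.1 (c a (x.1 b))))) (by
      intro l l'
      rw [← LD.add _ _ (Zc l.1 l.2 x.1 x.2) (Zc l'.1 l'.2 x.1 x.2)]
      congr 1
      funext a b
      rw [← hf_add]
      rfl)) (by
      intro x x'
      ext l
      show inv _ = inv _ + inv _
      rw [← LD.add _ _ (Zc l.1 l.2 x.1 x.2) (Zc l.1 l.2 x'.1 x'.2)]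
      congr 1
      funext a b
      rw [← hf_add, ← map_add, ← cadd]
      rfl)
  have hP : ∀ x l, P x l = inv (fun a b => hf (l.1 (c a (x.1 b)))) := fun x l => rfl
  have fC : Finite (z1s S hc) := (LD.ld pC).fin'
  have fA : Finite (z1s S ha) := (LD.ld pA).fin'
  have key := card_perp P ⊤ fun _ _ => trivial
  -- the left kernel
  have hL : ∀ x : z1s S hc, x ∈ perpL P.flip ⊤ ↔ ∃ y, Z1 S β y ∧ ∀ g, p (y g) = x.1 g := by
    intro x
    constructor
    · intro hx
      have hFZ : Z2 S α (fun a b => c a (x.1 b)) := by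
        obtain ⟨W, hW, h1⟩ := x.2.1
        refine ⟨⟨W ⊓ N, S.inf hW (big_self hN hop), fun g k w hw w' hw' => ?_⟩, fun a b e => ?_⟩
        · show c (g * w) (x.1 (k * w')) = c g (x.1 k)
          rw [cr g w hw.2, h1 k w' hw'.1]
        · show α a (c b (x.1 e)) - c (a * b) (x.1 e) + c a (x.1 (b * e)) - c a (x.1 b) = 0
          rw [cmul, x.2.2, cadd]
          abel
      obtain ⟨t, ht, hF⟩ := (LD.ld pA).two _ hFZ (fun z hz => by
        have hz' : z ∈ invD α := fun g a => by
          have h3 := congrArg (fun l : A →+ ZMod 2 => l a) (hz g⁻¹)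
          have h4 : z (α g⁻¹⁻¹ a) = z a := h3
          rwa [inv_inv] at h4
        exact hx ⟨z, hz'⟩ trivial)
      refine ⟨fun g => s (x.1 g) - i (t g), ⟨?_, fun a b => ?_⟩, fun g => ?_⟩
      · obtain ⟨W, hW, h1⟩ := x.2.1
        obtain ⟨W', hW', h1'⟩ := ht
        refine ⟨W ⊓ W', S.inf hW hW', fun g w hw => ?_⟩
        show s (x.1 (g * w)) - i (t (g * w)) = _
        rw [h1 g w hw.1, h1' g w hw.2]
      · have h3 : c a (x.1 b) = t a + α a (t b) - t (a * b) := congrFun (congrFun hF a) b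
        have h4 := congrArg i h3
        rw [hc', map_sub, map_add, ei] at h4
        show s (x.1 (a * b)) - i (t (a * b)) = s (x.1 a) - i (t a) + β a (s (x.1 b) - i (t b))
        rw [x.2.2, map_add, hb.sub]
        have h5 : β a (s (x.1 b)) = s (γ a (x.1 b)) + (i (t a) + β a (i (t b)) - i (t (a * b))) := by
          rw [← h4]
          abel
        rw [h5]
        abel
      · show p (s (x.1 g) - i (t g)) = x.1 g
        rw [map_sub, hs', (hk _).2 ⟨_, rfl⟩, sub_zero]
    · rintro ⟨y, hy, hyx⟩ l -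
      show inv (fun a b => hf (l.1 (c a (x.1 b)))) = 0
      have h1 : ∀ g, ∃ a, i a = y g - s (x.1 g) := fun g => (hk _).1 (by
        rw [map_sub, hs', hyx, sub_self])
      choose τ hτ using h1
      have hτs : Sm1 S τ := by
        obtain ⟨W, hW, h1⟩ := x.2.1
        obtain ⟨W', hW', h1'⟩ := hy.1
        exact ⟨W ⊓ W', S.inf hW hW', fun g w hw => hi (by
          rw [hτ, hτ, h1 g w hw.1, h1' g w hw.2])⟩
      have h3 : ∀ a b, c a (x.1 b) = τ (a * b) - τ a - α a (τ b) := fun a b => hi (by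
        rw [hc', map_sub, map_sub, ei, hτ, hτ, hτ, hy.2, x.2.2, map_add, hb.sub]
        abel)
      have h4 : (fun a b => hf (l.1 (c a (x.1 b)))) = d1 (tw χ) (fun g => hf (-l.1 (τ g))) := by
        funext a b
        have h5 : l.1 (α a (τ b)) = l.1 (τ b) := l.2 a (τ b)
        show _ = hf (-l.1 (τ a)) + χ a • hf (-l.1 (τ b)) - hf (-l.1 (τ (a * b)))
        rw [hχ, ← hf_add, h3, map_sub, map_sub, h5, eq_sub_iff_add_eq, ← hf_add]
        congr 1
        ring
      rw [h4]
      obtain ⟨W, hW, h1⟩ := hτs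
      exact LD.cob _ ⟨W, hW, fun g w hw => by simp only [h1 g w hw]⟩
  have cB : Nat.card (z1s S hb) = Nat.card (z1s S ha) * Nat.card (perpL P.flip ⊤) := by
    let f : z1s S hb →+ z1s S hc :=
      { toFun := fun y => ⟨fun g => p (y.1 g), by
          obtain ⟨W, hW, h1⟩ := y.2.1
          exact ⟨W, hW, fun g w hw => by simp only [h1 g w hw]⟩, fun a b => by
          show p (y.1 (a * b)) = p (y.1 a) + γ a (p (y.1 b))
          rw [y.2.2, map_add, ep]⟩
        map_zero' := Subtype.ext (funext fun g => map_zero p)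
        map_add' := fun y y' => Subtype.ext (funext fun g => map_add p _ _) }
    rw [ad_card f]
    congr 1
    · let k : z1s S ha → f.ker := fun x => ⟨⟨fun g => i (x.1 g), by
          obtain ⟨W, hW, h1⟩ := x.2.1
          exact ⟨W, hW, fun g w hw => by simp only [h1 g w hw]⟩, fun a b => by
          show i (x.1 (a * b)) = i (x.1 a) + β a (i (x.1 b))
          rw [x.2.2, map_add, ei]⟩, Subtype.ext (funext fun g => (hk _).2 ⟨_, rfl⟩)⟩
      refine (Nat.card_congr (Equiv.ofBijective k ⟨?_, ?_⟩)).symm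
      · intro x y hxy
        apply Subtype.ext
        funext g
        apply hi
        exact congrFun (congrArg (fun z : f.ker => z.1.1) hxy) g
      · rintro ⟨⟨y, hy⟩, hy0⟩
        have h1 : ∀ g, ∃ a, i a = y g := fun g => (hk _).1 (congrFun (congrArg Subtype.val hy0) g)
        choose x hx using h1
        refine ⟨⟨x, ⟨?_, fun a b => hi ?_⟩⟩, Subtype.ext (Subtype.ext (funext hx))⟩
        · obtain ⟨W, hW, h1⟩ := hy.1
          exact ⟨W, hW, fun g w hw => hi (by rw [hx, hx, h1 g w hw])⟩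
        · rw [hx, map_add, ei, hx, hx, hy.2]
    · refine Nat.card_congr (Equiv.subtypeEquivRight fun x => ?_)
      rw [hL]
      constructor
      · rintro ⟨y, rfl⟩
        exact ⟨y.1, y.2, fun g => rfl⟩
      · rintro ⟨y, hy, hyx⟩
        exact ⟨⟨y, hy⟩, Subtype.ext (funext hyx)⟩
  -- the right kernel
  have hpa : ∀ b, ∃ a, i a = b - s (p b) := fun b => (hk _).1 (by rw [map_sub, hs', sub_self])
  choose pa hpa using hpa
  have pa_add : ∀ b b', pa (b + b') = pa b + pa b' := fun b b' => hi (by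
    rw [map_add, hpa, hpa, hpa, map_add, map_add]
    abel)
  have pa_i : ∀ a, pa (i a) = a := fun a => hi (by
    rw [hpa, (hk _).2 ⟨a, rfl⟩, map_zero, sub_zero])
  have pa_act : ∀ g b, pa (β g b) = α g (pa b) + c g (p b) := fun g b => hi (by
    rw [map_add, hpa, ei, hpa, hc', ep, hb.sub]
    abel)
  have hR : ∀ l : invD α, l ∈ perpL P ⊤ ↔ ∃ μ : B →+ ZMod 2, μ ∈ invD β ∧ ∀ a, μ (i a) = l.1 a := by
    intro l
    constructor
    · intro hl
      obtain ⟨m, hm⟩ := (LD.ld pC).one _ (ψZ l.1 l.2) (fun y hy => by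
        rw [hcup l.1 l.2]
        exact hl ⟨y, hy⟩ trivial)
      have hm' : ∀ g n, l.1 (c g n) = m (γ g n) - m n := by
        intro g n
        have h1 := congrArg (fun f : C →+ ZMod 2 => f n) (congrFun hm g⁻¹)
        have h3 : l.1 (c g⁻¹⁻¹ n) = m (γ g⁻¹⁻¹ n) - m n := h1
        rwa [inv_inv] at h3
      refine ⟨AddMonoidHom.mk' (fun b => l.1 (pa b) - m (p b)) (fun b b' => by
        rw [pa_add, map_add, map_add, map_add]
        abel), fun g b => ?_, fun a => ?_⟩
      · show l.1 (pa (β g b)) - m (p (β g b)) = l.1 (pa b) - m (p b)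
        rw [pa_act, map_add, hm', ep]
        have h5 : l.1 (α g (pa b)) = l.1 (pa b) := l.2 g (pa b)
        rw [h5]
        abel
      · show l.1 (pa (i a)) - m (p (i a)) = l.1 a
        rw [pa_i, (hk _).2 ⟨a, rfl⟩, map_zero, sub_zero]
    · rintro ⟨μ, hμ, hμl⟩ x -
      show inv (fun a b => hf (l.1 (c a (x.1 b)))) = 0
      have h4 : (fun a b => hf (l.1 (c a (x.1 b)))) = d1 (tw χ) (fun g => hf (μ (s (x.1 g)))) := by
        funext a b
        show _ = hf (μ (s (x.1 a))) + χ a • hf (μ (s (x.1 b))) - hf (μ (s (x.1 (a * b))))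
        rw [hχ, ← hf_add, ← hμl, hc', map_sub, hμ, x.2.2, map_add, map_add,
          eq_sub_iff_add_eq, ← hf_add]
        congr 1
        ring
      rw [h4]
      obtain ⟨W, hW, h1⟩ := x.2.1
      exact LD.cob _ ⟨W, hW, fun g w hw => by simp only [h1 g w hw]⟩
  have cD : Nat.card (invD β) = Nat.card (invD γ) * Nat.card (perpL P ⊤) := by
    let f : invD β →+ invD α :=
      { toFun := fun μ => ⟨μ.1.comp i, fun g a => by
          show μ.1 (i (α g a)) = μ.1 (i a)
          rw [ei]
          exact μ.2 g (i a)⟩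
        map_zero' := rfl
        map_add' := fun _ _ => rfl }
    rw [ad_card f]
    congr 1
    · let k : invD γ → f.ker := fun ν => ⟨⟨ν.1.comp p, fun g b => by
          show ν.1 (p (β g b)) = ν.1 (p b)
          rw [ep]
          exact ν.2 g (p b)⟩, Subtype.ext (by
            ext a
            show ν.1 (p (i a)) = 0
            rw [(hk _).2 ⟨a, rfl⟩, map_zero])⟩
      refine (Nat.card_congr (Equiv.ofBijective k ⟨?_, ?_⟩)).symm
      · intro ν ν' h
        apply Subtype.ext
        ext n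
        obtain ⟨b, rfl⟩ := hp n
        exact congrArg (fun z : f.ker => z.1.1 b) h
      · rintro ⟨⟨μ, hμ⟩, h0⟩
        have h1 : ∀ a, μ (i a) = 0 := fun a =>
          congrArg (fun z : A →+ ZMod 2 => z a) (congrArg Subtype.val h0)
        have h3 : ∀ b, μ b = μ (s (p b)) := fun b => by
          rw [← sub_eq_zero, ← map_sub, ← hpa, h1]
        refine ⟨⟨μ.comp s, fun g n => ?_⟩, Subtype.ext (Subtype.ext ?_)⟩
        · obtain ⟨b, rfl⟩ := hp n
          show μ (s (γ g (p b))) = μ (s (p b))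
          rw [← ep, ← h3, ← h3]
          exact hμ g b
        · ext b
          exact (h3 b).symm
    · refine Nat.card_congr (Equiv.subtypeEquivRight fun l => ?_)
      rw [hR]
      constructor
      · rintro ⟨μ, rfl⟩
        exact ⟨μ.1, μ.2, fun a => rfl⟩
      · rintro ⟨μ, hμ, h⟩
        exact ⟨⟨μ, hμ⟩, Subtype.ext (AddMonoidHom.ext h)⟩
  -- the numbers
  have e1 : Nat.card {x : D → A // Z1 F α x} = Nat.card (z1s S ha) :=
    (Nat.card_congr (Equiv.subtypeEquivRight fun x => zA x)).symm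
  have e2 : Nat.card {x : D → B // Z1 F β x} = Nat.card (z1s S hb) :=
    (Nat.card_congr (Equiv.subtypeEquivRight fun x => zB x)).symm
  have e3 : Nat.card {x : D → C // Z1 F γ x} = Nat.card (z1s S hc) :=
    (Nat.card_congr (Equiv.subtypeEquivRight fun x => zC x)).symm
  have e4 : Nat.card (⊤ : AddSubgroup (z1s S hc)) = Nat.card (z1s S hc) :=
    Nat.card_congr AddSubgroup.topEquiv.toEquiv
  rw [e4] at key
  have hpos : 0 < Nat.card (perpL P ⊤) := Nat.card_pos
  rw [e1, e2, e3, cB, cD]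
  refine Nat.eq_of_mul_eq_mul_right hpos ?_
  calc Nat.card (z1s S ha) * Nat.card (perpL P.flip ⊤) *
        (Nat.card (invD α) * Nat.card (invD γ)) * Nat.card (perpL P ⊤)
      = Nat.card (z1s S ha) * (Nat.card (invD α) * Nat.card (perpL P.flip ⊤)) *
        (Nat.card (invD γ) * Nat.card (perpL P ⊤)) := by ring
    _ = Nat.card (z1s S ha) * (Nat.card (z1s S hc) * Nat.card (perpL P ⊤)) *
        (Nat.card (invD γ) * Nat.card (perpL P ⊤)) := by rw [key]
    _ = _ := by ring

end add

end Pool.Agent.Work.MP_787500_nt.EU
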