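import Mathlib
import Pool.Agent.Work.MP_787500_nt.EU.Add
import Pool.Agent.Work.MP_787500_nt.KR.A4_Loc
import Pool.Agent.Work.MP_787500_nt.KR.A2_Ind
import Pool.Agent.Work.MP_787500_nt.KR.C3_Sm

/-!
# The number of cocycles of regular modules

`N` is an open normal subgroup of `D` of index `n`, `R = (D ⧸ N → U)`, `U` killed by 2, with trivial action on `U`. The number
of cocycles is at least `card U ^ (2 n + 1)` (`card_reg`): Shapiro's lemma and `CountsF F 1`. The functions are written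
on `Fin n`, to stay in the universe of `U`.
-/

set_option autoImplicit false
set_option linter.unusedSectionVars false

namespace Pool.Agent.Work.MP_787500_nt.EU

open Pool.Agent.Work.MP_787500_nt.GP (A0 IsAct d0)
open Pool.Agent.Work.MP_787500_nt.PA (homs)
open Pool.Agent.Work.MP_787500_nt.KR (FSys Smooth Z1 Sm1 big Opn CountsF prm prm_act orb b1s z1s h1
  ofTwo two res traQ traQ_sm tr2 tr2_act card_b1 card_z1 h1_ind h1_tr2)

universe u v

section fam

variable {G : Type*} [Group G] (S : FSys G)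

/-- a member of the system below a finite family of members -/
theorem exists_le {ι : Type*} [Finite ι] (W : ι → Subgroup G) (h : ∀ i, S.mem (W i)) :
    ∃ W', S.mem W' ∧ ∀ i, W' ≤ W i := by
  classical
  have := Fintype.ofFinite ι
  have key : ∀ s : Finset ι, ∃ W', S.mem W' ∧ ∀ i ∈ s, W' ≤ W i := by
    intro s
    induction s using Finset.induction_on with
    | empty =>
      obtain ⟨W', hW'⟩ := S.ex
      exact ⟨W', hW', fun i hi => absurd hi (Finset.notMem_empty i)⟩
    | insert i s _ ih =>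
      obtain ⟨W', hW', h1⟩ := ih
      refine ⟨W' ⊓ W i, S.inf hW' (h i), fun k hk => ?_⟩
      rcases Finset.mem_insert.1 hk with rfl | hk
      · exact inf_le_right
      · exact inf_le_left.trans (h1 k hk)
  obtain ⟨W', hW', h1⟩ := key Finset.univ
  exact ⟨W', hW', fun i => h1 i (Finset.mem_univ i)⟩

end fam

section reg

variable {D : Type u} [Group D] {F : FSys D}

theorem orb_quot (N : Subgroup D) : orb (MonoidHom.id D) (D ⧸ N) = 1 := by
  unfold orb
  have h1 : Subsingleton (MulAction.orbitRel.Quotient (MonoidHom.id D).range (D ⧸ N)) := by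
    refine ⟨fun a b => ?_⟩
    induction a using Quotient.inductionOn' with
    | h a =>
      induction b using Quotient.inductionOn' with
      | h b =>
        induction a using QuotientGroup.induction_on with
        | H a =>
          induction b using QuotientGroup.induction_on with
          | H b =>
            refine Quotient.eq''.2 ?_
            refine ⟨⟨a * b⁻¹, a * b⁻¹, rfl⟩, ?_⟩
            show (((a * b⁻¹) * b : D) : D ⧸ N) = (a : D ⧸ N)
            rw [inv_mul_cancel_right]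
  have h2 : Nonempty (MulAction.orbitRel.Quotient (MonoidHom.id D).range (D ⧸ N)) :=
    ⟨Quotient.mk'' ((1 : D) : D ⧸ N)⟩
  exact Nat.card_eq_one_iff_unique.2 ⟨h1, h2⟩

theorem finite_quot {N : Subgroup D} (hop : Opn F N) : Finite (D ⧸ N) := by
  obtain ⟨W, hW, hWN⟩ := hop
  refine Nat.finite_of_card_ne_zero ?_
  show N.index ≠ 0
  exact fun h0 => F.index hW (Nat.eq_zero_of_zero_dvd (h0 ▸ Subgroup.index_dvd_of_le hWN))

theorem perm_triv {N : Subgroup D} (hN : N.Normal) (hop : Opn F N) :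
    ∃ W, F.mem W ∧ ∀ w ∈ W, ∀ v : D ⧸ N, (MonoidHom.id D) w • v = v := by
  obtain ⟨W, hW, hWN⟩ := hop
  refine ⟨W, hW, fun w hw v => ?_⟩
  induction v using QuotientGroup.induction_on with
  | H v =>
    show ((w * v : D) : D ⧸ N) = (v : D ⧸ N)
    rw [eq_comm, QuotientGroup.eq]
    have := hN.conj_mem w (hWN hw) v⁻¹
    rw [inv_inv] at this
    rwa [← mul_assoc]

theorem fin_reg (hc : CountsF F 1) {N : Subgroup D} (hN : N.Normal) (hop : Opn F N) :
    Finite {x : D → (D ⧸ N) → ZMod 2 // Z1 F prm x} ∧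
      Nat.card {x : D → (D ⧸ N) → ZMod 2 // Z1 F prm x} ≤ 2 ^ (1 * N.index + 1 + N.index) := by
  have := finite_quot hop
  have h1 := card_z1 (j := MonoidHom.id D) (V := D ⧸ N) (F := F) (S := F)
    (fun W hW => ⟨W, hW, le_rfl⟩) hc (perm_triv hN hop)
  rw [orb_quot] at h1
  exact h1

theorem le_reg (hc : CountsF F 1) {N : Subgroup D} (hN : N.Normal) (hop : Opn F N) :
    2 ^ (2 * N.index + 1) ≤ Nat.card {x : D → (D ⧸ N) → ZMod 2 // Z1 F prm x} := by
  have := finite_quot hop
  have hfin := (fin_reg hc hN hop).1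
  have hT : (traQ N).Sm (big F N) (ofTwo (two (res F N))) :=
    traQ_sm hop le_rfl ⟨0, by simp⟩
  have e1 : h1 (big F N) (prm_act : IsAct (prm : D → ((D ⧸ N) → ZMod 2) → (D ⧸ N) → ZMod 2)) =
      2 ^ (1 * N.index + 2) := by
    have h2 := h1_ind hT (tr2_act : IsAct (tr2 : N → ZMod 2 → ZMod 2))
    rw [h1_tr2 _ (hc N hop).1, (hc N hop).2] at h2
    exact h2
  have e2 : Nat.card (b1s (prm_act : IsAct (prm : D → ((D ⧸ N) → ZMod 2) → (D ⧸ N) → ZMod 2))) *
      2 ^ 1 = 2 ^ N.index := by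
    have h2 := card_b1 (j := MonoidHom.id D) (V := D ⧸ N)
    rw [orb_quot] at h2
    exact h2
  have hle : b1s (prm_act : IsAct (prm : D → ((D ⧸ N) → ZMod 2) → (D ⧸ N) → ZMod 2)) ≤
      z1s (big F N) prm_act := by
    rintro _ ⟨m, rfl⟩
    refine KR.d0_Z1 prm_act ⟨N, big_self hN hop, fun w hw f => ?_⟩ m
    funext v
    show f (w⁻¹ • v) = f v
    congr 1
    induction v using QuotientGroup.induction_on with
    | H v =>
      show ((w⁻¹ * v : D) : D ⧸ N) = (v : D ⧸ N)
      rw [eq_comm, QuotientGroup.eq, ← mul_assoc]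
      have := hN.conj_mem w⁻¹ (N.inv_mem hw) v⁻¹
      rwa [inv_inv] at this
  have e3 : Nat.card (b1s (prm_act : IsAct (prm : D → ((D ⧸ N) → ZMod 2) → (D ⧸ N) → ZMod 2))) *
      h1 (big F N) (prm_act : IsAct (prm : D → ((D ⧸ N) → ZMod 2) → (D ⧸ N) → ZMod 2)) =
      Nat.card (z1s (big F N)
        (prm_act : IsAct (prm : D → ((D ⧸ N) → ZMod 2) → (D ⧸ N) → ZMod 2))) := by
    have h2 := ((b1s (prm_act : IsAct (prm : D → ((D ⧸ N) → ZMod 2) → (D ⧸ N) → ZMod 2))).addSubgroupOf
      (z1s (big F N) prm_act)).card_mul_index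
    rw [Nat.card_congr (AddSubgroup.addSubgroupOfEquivOfLe hle).toEquiv] at h2
    exact h2
  have e4 : Nat.card (z1s (big F N)
      (prm_act : IsAct (prm : D → ((D ⧸ N) → ZMod 2) → (D ⧸ N) → ZMod 2))) ≤
      Nat.card {x : D → (D ⧸ N) → ZMod 2 // Z1 F prm x} := by
    refine Nat.card_le_card_of_injective (fun x => ⟨x.1, ?_⟩) (fun x y hxy => ?_)
    · obtain ⟨⟨W, ⟨-, ⟨V, hV, hVW⟩, -⟩, h1⟩, h2⟩ := x.2
      exact ⟨⟨V, hV, fun g w hw => h1 g w (hVW hw)⟩, h2⟩
    · exact Subtype.ext (congrArg (fun z : {x : D → (D ⧸ N) → ZMod 2 // Z1 F prm x} => z.1) hxy)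
  refine le_trans (le_of_eq ?_) e4
  rw [← e3, e1]
  have h5 : 2 ^ (2 * N.index + 1) * 2 ^ 1 = (2 ^ N.index) * 2 ^ (1 * N.index + 2) := by
    rw [← pow_add, ← pow_add]
    congr 1
    ring
  rw [← e2] at h5
  have h6 : (2 : ℕ) ^ 1 ≠ 0 := by norm_num
  have h7 : 2 ^ (2 * N.index + 1) * 2 ^ 1 = (Nat.card (b1s (prm_act :
      IsAct (prm : D → ((D ⧸ N) → ZMod 2) → (D ⧸ N) → ZMod 2))) * 2 ^ (1 * N.index + 2)) * 2 ^ 1 := by
    rw [h5]
    ring
  exact Nat.eq_of_mul_eq_mul_right (Nat.pos_of_ne_zero h6) h7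

/-- the action on the functions on `D ⧸ N ≃ Fin n` -/
def rg {N : Subgroup D} {n : ℕ} (e : D ⧸ N ≃ Fin n) (U : Type v) :
    D → (Fin n → U) → (Fin n → U) := fun g f k => f (e (g⁻¹ • e.symm k))

theorem rg_act {N : Subgroup D} {n : ℕ} (e : D ⧸ N ≃ Fin n) (U : Type v) [AddCommGroup U] :
    IsAct (rg e U) where
  one f := by
    funext k
    show f (e ((1 : D)⁻¹ • e.symm k)) = f k
    rw [inv_one, one_smul, e.apply_symm_apply]
  mul g h f := by
    funext k
    show f (e ((g * h)⁻¹ • e.symm k)) = f (e (h⁻¹ • e.symm (e (g⁻¹ • e.symm k))))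
    rw [e.symm_apply_apply, mul_inv_rev, mul_smul]
  add _ _ _ := rfl

theorem rg_triv {N : Subgroup D} (hN : N.Normal) {n : ℕ} (e : D ⧸ N ≃ Fin n) (U : Type v) :
    ∀ g ∈ N, ∀ f, rg e U g f = f := by
  intro w hw f
  funext k
  show f (e (w⁻¹ • e.symm k)) = f k
  have h1 : w⁻¹ • e.symm k = e.symm k := by
    induction e.symm k using QuotientGroup.induction_on with
    | H v =>
      show ((w⁻¹ * v : D) : D ⧸ N) = (v : D ⧸ N)
      rw [eq_comm, QuotientGroup.eq, ← mul_assoc]
      have := hN.conj_mem w⁻¹ (N.inv_mem hw) v⁻¹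
      rwa [inv_inv] at this
  rw [h1, e.apply_symm_apply]

theorem rg_smooth {N : Subgroup D} (hN : N.Normal) (hop : Opn F N) {n : ℕ} (e : D ⧸ N ≃ Fin n)
    (U : Type v) [AddCommGroup U] : Smooth F (rg e U) := by
  obtain ⟨W, hW, hWN⟩ := hop
  exact ⟨W, hW, fun w hw f => rg_triv hN e U w (hWN hw) f⟩

/-- coordinates of a group killed by 2 -/
theorem exists_coord {U : Type v} [AddCommGroup U] [Finite U] (h2 : ∀ u : U, u + u = 0) :
    ∃ m : ℕ, Nonempty (U ≃+ (Fin m → ZMod 2)) ∧ Nat.card U = 2 ^ m := by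
  let _ : Module (ZMod 2) U := AddCommGroup.zmodModule fun u => by rw [two_nsmul, h2]
  have : Module.Finite (ZMod 2) U := Module.Finite.of_finite
  let b := Module.finBasis (ZMod 2) U
  refine ⟨_, ⟨b.equivFun.toAddEquiv⟩, ?_⟩
  rw [Nat.card_congr b.equivFun.toEquiv, Nat.card_fun, Nat.card_zmod, Nat.card_eq_fintype_card,
    Fintype.card_fin]

theorem card_reg (hc : CountsF F 1) {N : Subgroup D} (hN : N.Normal) (hop : Opn F N) {n : ℕ}
    (e : D ⧸ N ≃ Fin n) {U : Type v} [AddCommGroup U] [Finite U] (h2 : ∀ u : U, u + u = 0)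
    (hfin : Finite {x : D → Fin n → U // Z1 F (rg e U) x}) :
    Nat.card U ^ (2 * n + 1) ≤ Nat.card {x : D → Fin n → U // Z1 F (rg e U) x} := by
  obtain ⟨m, ⟨E⟩, hm⟩ := exists_coord h2
  have := finite_quot hop
  have hn : N.index = n := by
    rw [Subgroup.index, Nat.card_congr e, Nat.card_eq_fintype_card, Fintype.card_fin]
  have h1 := le_reg hc hN hop
  have hf := (fin_reg hc hN hop).1
  rw [hn] at h1
  let Φ : (Fin m → {x : D → (D ⧸ N) → ZMod 2 // Z1 F prm x}) →
      {x : D → Fin n → U // Z1 F (rg e U) x} := fun x =>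
    ⟨fun g k => E.symm fun i => (x i).1 g (e.symm k), by
      refine ⟨?_, fun a b => ?_⟩
      · have h3 : ∀ i, ∃ W, F.mem W ∧ ∀ g, ∀ w ∈ W, (x i).1 (g * w) = (x i).1 g :=
          fun i => (x i).2.1
        choose W hW hW' using h3
        obtain ⟨W', hW1, hW2⟩ := exists_le F W hW
        refine ⟨W', hW1, fun g w hw => ?_⟩
        funext k
        simp only [hW' _ g w (hW2 _ hw)]
      · funext k
        show E.symm (fun i => (x i).1 (a * b) (e.symm k)) =
          E.symm (fun i => (x i).1 a (e.symm k)) +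
            E.symm (fun i => (x i).1 b (e.symm (e (a⁻¹ • e.symm k))))
        rw [← map_add]
        congr 1
        funext i
        rw [(x i).2.2, e.symm_apply_apply]
        rfl⟩
  have hΦ : Function.Injective Φ := by
    intro x y hxy
    funext i
    apply Subtype.ext
    funext g v
    have h3 : E.symm (fun i => (x i).1 g (e.symm (e v))) =
        E.symm (fun i => (y i).1 g (e.symm (e v))) :=
      congrFun (congrFun (congrArg Subtype.val hxy) g) (e v)
    have h4 := congrFun (E.symm.injective h3) i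
    simpa only [e.symm_apply_apply] using h4
  have h3 := Nat.card_le_card_of_injective Φ hΦ
  rw [Nat.card_fun, Nat.card_eq_fintype_card (α := Fin m), Fintype.card_fin] at h3
  refine le_trans ?_ h3
  rw [hm, ← pow_mul, mul_comm m, pow_mul]
  exact Nat.pow_le_pow_left h1 m

end reg

end Pool.Agent.Work.MP_787500_nt.EU
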