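import Mathlib
import Pool.Agent.Work.MP_787500_nt.EU.Defs
import Pool.Agent.Work.MP_787500_nt.EU.Add
import Pool.Agent.Work.MP_787500_nt.EU.Reg
import Pool.Agent.Work.MP_787500_nt.KR.BDefs
import Pool.Agent.Work.MP_787500_nt.KR.UDefs

/-!
# The local Euler characteristic from the bound for simple modules

`D` is a group of local type of degree 1 (`CountsF F 1`). If the number of cocycles with values in a simple module `U` with
nontrivial action is at most `card U ^ 2`, then it is `card U ^ 2 * card (invD υ)` for all finite modules killed by 2.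

By additivity (`add_seq`) the number is at most `card U ^ 2 * card (invD υ)` for all modules; a module with kernel `N` embeds
into the regular module `D ⧸ N → U`, for which the number is at least this, and additivity gives equality.
-/

set_option autoImplicit false
set_option linter.unusedSectionVars false

namespace Pool.Agent.Work.MP_787500_nt.EU

open Pool.Agent.Work.MP_787500_nt.GP (A0 IsAct)
open Pool.Agent.Work.MP_787500_nt.KR (FSys LocB CountsF Smooth Z1 Opn prm Sm1)

universe u v

section main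

variable {D : Type u} [Group D] {F : FSys D} {χ : D → ℤ_[2]} {inv : (D → D → A0) → A0}

private theorem mn_finHom (U : Type*) [AddCommGroup U] [Finite U] : Finite (U →+ ZMod 2) :=
  Finite.of_injective (fun l : U →+ ZMod 2 => (l : U → ZMod 2)) DFunLike.coe_injective

private theorem mn_card_hom {U : Type*} [AddCommGroup U] [Finite U] :
    Nat.card (U →+ ZMod 2) ≤ Nat.card U := by
  have h1 := GP.card_hom_le U
  have := h1.1
  refine (Nat.card_le_card_of_injective (fun l : U →+ ZMod 2 => hfh.comp l) ?_).trans h1.2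
  intro l l' h
  ext u
  exact GP.hf_inj (DFunLike.congr_fun h u)

/-- the simple modules with trivial action -/
private theorem mn_triv (hB : ∀ N, LocB F N χ inv) (hc : CountsF F 1) {U : Type v}
    [AddCommGroup U] [Finite U] {υ : D → U → U} (h : IsAct υ) (hs : Smooth F υ)
    (h2 : ∀ u : U, u + u = 0) (hsi : Simp υ) (ht : ∀ g u, υ g u = u) :
    Nat.card {x : D → U // Z1 F υ x} ≤ Nat.card U ^ 2 * Nat.card (invD υ) := by
  have hnt := hsi.nt
  obtain ⟨u, hu⟩ := exists_ne (0 : U)
  obtain ⟨l, hl⟩ : ∃ l : U →+ ZMod 2, l u ≠ 0 := by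
    by_contra hcon
    push Not at hcon
    exact hu (exists_sep h2 hcon)
  have hker : l.ker = ⊥ := by
    rcases hsi.sub l.ker (fun g a ha => by rw [ht]; exact ha) with h3 | h3
    · exact h3
    · exfalso
      apply hl
      have h4 : u ∈ l.ker := by
        rw [h3]
        trivial
      exact h4
  have hinj : Function.Injective l := (AddMonoidHom.ker_eq_bot_iff l).1 hker
  have hTn : (⊤ : Subgroup D).Normal := inferInstance
  have hTo : Opn F (⊤ : Subgroup D) := by
    obtain ⟨W, hW⟩ := F.ex
    exact ⟨W, hW, le_top⟩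
  obtain ⟨hf, hle⟩ := fin_reg hc hTn hTo
  rw [Subgroup.index_top] at hle
  have h3 : Nat.card {x : D → U // Z1 F υ x} ≤
      Nat.card {x : D → (D ⧸ (⊤ : Subgroup D)) → ZMod 2 // Z1 F prm x} := by
    refine Nat.card_le_card_of_injective (fun x => ⟨fun g _ => l (x.1 g), ?_, ?_⟩) ?_
    · obtain ⟨W, hW, h1⟩ := x.2.1
      exact ⟨W, hW, fun g w hw => by simp only [h1 g w hw]⟩
    · intro a b
      funext v
      show l (x.1 (a * b)) = l (x.1 a) + l (x.1 b)
      rw [x.2.2, ht, map_add]
    · intro x y hxy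
      apply Subtype.ext
      funext g
      apply hinj
      exact congrFun (congrFun (congrArg Subtype.val hxy) g) ((1 : D) : D ⧸ (⊤ : Subgroup D))
  have h4 : 2 ≤ Nat.card U := by
    have := hsi.nt
    exact Finite.one_lt_card
  have h5 : 2 ≤ Nat.card (invD υ) := by
    have hfh := mn_finHom U
    have : Nontrivial (invD υ) := ⟨⟨0, ⟨l, fun g u => by rw [ht]⟩, fun h => hl (by
      have h6 := congrArg (fun z : invD υ => z.1 u) h
      exact h6.symm)⟩⟩
    exact Finite.one_lt_card
  calc _ ≤ 2 ^ (1 * 1 + 1 + 1) := h3.trans hle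
    _ = 2 ^ 2 * 2 := by norm_num
    _ ≤ _ := Nat.mul_le_mul (Nat.pow_le_pow_left h4 2) h5

private theorem mn_card_sub {U : Type*} [AddCommGroup U] [Finite U] (A : AddSubgroup U) :
    Nat.card U = Nat.card A * Nat.card (U ⧸ A) := by
  rw [AddSubgroup.card_eq_card_quotient_mul_card_addSubgroup A, mul_comm]

/-- the submodule and the quotient module of an invariant subgroup -/
private theorem mn_seq (hB : ∀ N, LocB F N χ inv) {U : Type v}
    [AddCommGroup U] [Finite U] {υ : D → U → U} (h : IsAct υ) (hs : Smooth F υ)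
    (h2 : ∀ u : U, u + u = 0) (A : AddSubgroup U) (hA : ∀ g, ∀ a ∈ A, υ g a ∈ A) :
    ∃ (α : D → A → A) (γ : D → (U ⧸ A) → (U ⧸ A)), IsAct α ∧ IsAct γ ∧ Smooth F α ∧ Smooth F γ ∧
      (∀ g a, (α g a : U) = υ g a) ∧ (∀ a : A, a + a = 0) ∧ (∀ a : U ⧸ A, a + a = 0) ∧
      Nat.card {x : D → U // Z1 F υ x} * (Nat.card (invD α) * Nat.card (invD γ)) =
        Nat.card {x : D → A // Z1 F α x} * Nat.card {x : D → U ⧸ A // Z1 F γ x} *
          Nat.card (invD υ) := by
  let α : D → A → A := fun g a => ⟨υ g a, hA g a a.2⟩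
  let γ : D → (U ⧸ A) → (U ⧸ A) := fun g =>
    QuotientAddGroup.map A A (AddMonoidHom.mk' (υ g) (h.add g)) (fun a ha => hA g a ha)
  have hγ : ∀ g (u : U), γ g (QuotientAddGroup.mk' A u) = QuotientAddGroup.mk' A (υ g u) :=
    fun g u => rfl
  have hsj : Function.Surjective (QuotientAddGroup.mk' A) := QuotientAddGroup.mk'_surjective A
  have actA : IsAct α := ⟨fun m => Subtype.ext (h.one _), fun g k m => Subtype.ext (h.mul g k _),
    fun g m m' => Subtype.ext (h.add g _ _)⟩
  have actC : IsAct γ := by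
    refine ⟨fun m => ?_, fun g k m => ?_, fun g m m' => map_add _ _ _⟩
    · obtain ⟨m, rfl⟩ := hsj m
      rw [hγ, h.one]
    · obtain ⟨m, rfl⟩ := hsj m
      rw [hγ, h.mul, hγ, hγ]
  have h2A : ∀ a : A, a + a = 0 := fun a => Subtype.ext (h2 _)
  have h2C : ∀ a : U ⧸ A, a + a = 0 := fun a => by
    obtain ⟨a, rfl⟩ := hsj a
    rw [← map_add, h2, map_zero]
  have smA : Smooth F α := by
    obtain ⟨W, hW, h1⟩ := hs
    exact ⟨W, hW, fun w hw m => Subtype.ext (h1 w hw _)⟩
  have smC : Smooth F γ := by
    obtain ⟨W, hW, h1⟩ := hs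
    refine ⟨W, hW, fun w hw m => ?_⟩
    obtain ⟨m, rfl⟩ := hsj m
    rw [hγ, h1 w hw]
  refine ⟨α, γ, actA, actC, smA, smC, fun g a => rfl, h2A, h2C, ?_⟩
  refine add_seq hB actA h actC hs h2 A.subtype (QuotientAddGroup.mk' A) A.subtype_injective hsj
    (fun b => ?_) (fun g a => rfl) (fun g b => (hγ g b).symm)
  constructor
  · intro hb
    exact ⟨⟨b, (QuotientAddGroup.eq_zero_iff b).1 hb⟩, rfl⟩
  · rintro ⟨a, rfl⟩
    exact (QuotientAddGroup.eq_zero_iff _).2 a.2

private theorem mn_pos {U : Type v} [AddCommGroup U] [Finite U] {υ : D → U → U} :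
    0 < Nat.card (invD υ) := by
  have := mn_finHom U
  exact Nat.card_pos

/-- the upper bound -/
private theorem mn_le (hB : ∀ N, LocB F N χ inv) (hc : CountsF F 1)
    (hUB : ∀ {U : Type v} [AddCommGroup U] [Finite U] {υ : D → U → U}, IsAct υ → Smooth F υ →
      (∀ u : U, u + u = 0) → Simp υ → (∃ g u, υ g u ≠ u) →
      Nat.card {x : D → U // Z1 F υ x} ≤ Nat.card U ^ 2) (n : ℕ) :
    ∀ (U : Type v) [AddCommGroup U] [Finite U] (υ : D → U → U), IsAct υ → Smooth F υ →
      (∀ u : U, u + u = 0) → Nat.card U = n →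
      Nat.card {x : D → U // Z1 F υ x} ≤ Nat.card U ^ 2 * Nat.card (invD υ) := by
  induction n using Nat.strong_induction_on with
  | _ n ih =>
    intro U _ _ υ h hs h2 hn
    by_cases hsi : Simp υ
    · by_cases ht : ∃ g u, υ g u ≠ u
      · refine (hUB h hs h2 hsi ht).trans ?_
        exact Nat.le_mul_of_pos_right _ mn_pos
      · push Not at ht
        exact mn_triv hB hc h hs h2 hsi ht
    · rcases subsingleton_or_nontrivial U with hU | hU
      · have h3 : Nat.card {x : D → U // Z1 F υ x} ≤ 1 := by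
          have : Subsingleton {x : D → U // Z1 F υ x} :=
            ⟨fun x y => Subtype.ext (Subsingleton.elim _ _)⟩
          exact Finite.card_le_one_iff_subsingleton.2 this
        have h4 : Nat.card U = 1 := Nat.card_unique
        rw [h4, one_pow, one_mul]
        exact h3.trans mn_pos
      · obtain ⟨A, hA, hA1, hA2⟩ : ∃ A : AddSubgroup U, (∀ g, ∀ a ∈ A, υ g a ∈ A) ∧ A ≠ ⊥ ∧
            A ≠ ⊤ := by
          by_contra hcon
          push Not at hcon
          exact hsi ⟨hU, fun A hA => or_iff_not_imp_left.2 fun hne => hcon A hA hne⟩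
        obtain ⟨α, γ, actA, actC, smA, smC, -, h2A, h2C, key⟩ := mn_seq hB h hs h2 A hA
        have e1 := mn_card_sub A
        have nA : 1 < Nat.card A := by
          have : Nontrivial A := (AddSubgroup.nontrivial_iff_ne_bot A).2 hA1
          exact Finite.one_lt_card
        have nC : 1 < Nat.card (U ⧸ A) := by
          have : Nontrivial (U ⧸ A) := QuotientAddGroup.nontrivial_iff.2 hA2
          exact Finite.one_lt_card
        have lA : Nat.card A < n := by
          rw [← hn, e1]
          exact lt_mul_of_one_lt_right (by omega) nC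
        have lC : Nat.card (U ⧸ A) < n := by
          rw [← hn, e1]
          exact lt_mul_of_one_lt_left (by omega) nA
        have bA := ih _ lA A α actA smA h2A rfl
        have bC := ih _ lC (U ⧸ A) γ actC smC h2C rfl
        have pA : 0 < Nat.card (invD α) := mn_pos
        have pC : 0 < Nat.card (invD γ) := mn_pos
        refine Nat.le_of_mul_le_mul_right ?_ (Nat.mul_pos pA pC)
        calc _ = _ := key
          _ ≤ (Nat.card A ^ 2 * Nat.card (invD α)) *
              (Nat.card (U ⧸ A) ^ 2 * Nat.card (invD γ)) * Nat.card (invD υ) :=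
            Nat.mul_le_mul_right _ (Nat.mul_le_mul bA bC)
          _ = _ := by
            rw [e1]
            ring

theorem euler_of_simp (hB : ∀ N, LocB F N χ inv) (hc : CountsF F 1)
    (hUB : ∀ {U : Type v} [AddCommGroup U] [Finite U] {υ : D → U → U}, IsAct υ → Smooth F υ →
      (∀ u : U, u + u = 0) → Simp υ → (∃ g u, υ g u ≠ u) →
      Nat.card {x : D → U // Z1 F υ x} ≤ Nat.card U ^ 2)
    {U : Type v} [AddCommGroup U] [Finite U] {υ : D → U → U} (h : IsAct υ) (hs : Smooth F υ)
    (h2 : ∀ u : U, u + u = 0) :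
    Nat.card {x : D → U // Z1 F υ x} = Nat.card U ^ 2 * Nat.card (invD υ) := by
  refine le_antisymm (mn_le hB hc hUB _ U υ h hs h2 rfl) ?_
  -- the regular module
  have hN := kerA_normal h
  have hop := kerA_opn h hs
  have hq := finite_quot hop
  let e : D ⧸ kerA h ≃ Fin (Nat.card (D ⧸ kerA h)) := Finite.equivFin _
  set n := Nat.card (D ⧸ kerA h) with hn
  have actR := rg_act e U
  have smR := rg_smooth hN hop e U
  have h2R : ∀ f : Fin n → U, f + f = 0 := fun f => by
    funext k
    exact h2 _
  have finR := finZ hB actR smR h2R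
  have bR := card_reg hc hN hop e h2 finR
  -- the embedding
  let φ : U → (D ⧸ kerA h) → U := fun u v => Quotient.liftOn' v (fun g => υ g⁻¹ u) (by
    intro a b hab
    have h3 : a⁻¹ * b ∈ kerA h := QuotientGroup.leftRel_apply.1 hab
    show υ a⁻¹ u = υ b⁻¹ u
    have h4 : a⁻¹ = (a⁻¹ * b) * b⁻¹ := by group
    rw [h4, h.mul, mem_kerA.1 h3])
  have hφ : ∀ u (g : D), φ u (g : D ⧸ kerA h) = υ g⁻¹ u := fun u g => rfl
  let i : U →+ (Fin n → U) := AddMonoidHom.mk' (fun u k => φ u (e.symm k)) (fun u u' => by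
    funext k
    show φ (u + u') (e.symm k) = φ u (e.symm k) + φ u' (e.symm k)
    induction e.symm k using QuotientGroup.induction_on with
    | H v => rw [hφ, hφ, hφ, h.add])
  have hi : ∀ u k, i u k = φ u (e.symm k) := fun u k => rfl
  have hinj : Function.Injective i := by
    intro u u' huu
    have h3 := congrFun huu (e ((1 : D) : D ⧸ kerA h))
    rw [hi, hi, e.symm_apply_apply, hφ, hφ, inv_one, h.one, h.one] at h3
    exact h3
  have ei : ∀ g u, i (υ g u) = rg e U g (i u) := by
    intro g u
    funext k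
    show φ (υ g u) (e.symm k) = φ u (e.symm (e (g⁻¹ • e.symm k)))
    rw [e.symm_apply_apply]
    induction e.symm k using QuotientGroup.induction_on with
    | H v =>
      show υ v⁻¹ (υ g u) = υ (g⁻¹ * v)⁻¹ u
      rw [← h.mul, mul_inv_rev, inv_inv]
  let A : AddSubgroup (Fin n → U) := i.range
  have hA : ∀ g, ∀ a ∈ A, rg e U g a ∈ A := by
    rintro g _ ⟨u, rfl⟩
    exact ⟨υ g u, ei g u⟩
  obtain ⟨α, γ, actA, actC, smA, smC, hα, h2A, h2C, key⟩ := mn_seq hB actR smR h2R A hA
  have hfR : Finite (Fin n → U) := inferInstance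
  -- `A` is isomorphic to `U`
  let E : U ≃+ A := AddEquiv.ofBijective i.rangeRestrict
    ⟨fun a b hab => hinj (congrArg Subtype.val hab), i.rangeRestrict_surjective⟩
  have hE : ∀ u, ((E u : A) : Fin n → U) = i u := fun u => rfl
  have hEα : ∀ g u, E (υ g u) = α g (E u) := fun g u => Subtype.ext (by
    rw [hE, ei, hα, hE])
  have cA : Nat.card A = Nat.card U := (Nat.card_congr E.toEquiv).symm
  have zA : Nat.card {x : D → A // Z1 F α x} = Nat.card {x : D → U // Z1 F υ x} := by
    let k : {x : D → U // Z1 F υ x} → {x : D → A // Z1 F α x} := fun x =>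
      ⟨fun g => E (x.1 g), by
        obtain ⟨W, hW, h1⟩ := x.2.1
        exact ⟨W, hW, fun g w hw => by simp only [h1 g w hw]⟩, fun a b => by
        show E (x.1 (a * b)) = E (x.1 a) + α a (E (x.1 b))
        rw [x.2.2, map_add, hEα]⟩
    refine (Nat.card_congr (Equiv.ofBijective k ⟨fun x y hxy => ?_, fun y => ?_⟩)).symm
    · apply Subtype.ext
      funext g
      exact E.injective (congrFun (congrArg Subtype.val hxy) g)
    · refine ⟨⟨fun g => E.symm (y.1 g), ?_, fun a b => ?_⟩, Subtype.ext (funext fun g => ?_)⟩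
      · obtain ⟨W, hW, h1⟩ := y.2.1
        exact ⟨W, hW, fun g w hw => by simp only [h1 g w hw]⟩
      · apply E.injective
        rw [map_add, hEα, E.apply_symm_apply, E.apply_symm_apply, E.apply_symm_apply, y.2.2]
      · exact E.apply_symm_apply _
  have dA : Nat.card (invD α) = Nat.card (invD υ) := by
    refine Nat.card_congr (Equiv.ofBijective (fun l => ⟨l.1.comp E.toAddMonoidHom, fun g u => ?_⟩)
      ⟨fun l l' hll => ?_, fun l => ?_⟩)
    · show l.1 (E (υ g u)) = l.1 (E u)
      rw [hEα]
      exact l.2 g _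
    · apply Subtype.ext
      ext a
      obtain ⟨u, rfl⟩ := E.surjective a
      exact DFunLike.congr_fun (congrArg Subtype.val hll) u
    · refine ⟨⟨l.1.comp E.symm.toAddMonoidHom, fun g a => ?_⟩, Subtype.ext ?_⟩
      · obtain ⟨u, rfl⟩ := E.surjective a
        show l.1 (E.symm (α g (E u))) = l.1 (E.symm (E u))
        rw [← hEα, E.symm_apply_apply, E.symm_apply_apply]
        exact l.2 g u
      · ext u
        show l.1 (E.symm (E u)) = l.1 u
        rw [E.symm_apply_apply]
  -- the invariant homomorphisms of the regular module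
  have dR : Nat.card (invD (rg e U)) ≤ Nat.card U := by
    classical
    have hfh := mn_finHom U
    refine (Nat.card_le_card_of_injective (fun l : invD (rg e U) =>
      (l.1.comp (AddMonoidHom.single (fun _ : Fin n => U) (e ((1 : D) : D ⧸ kerA h))) :
        U →+ ZMod 2)) ?_).trans mn_card_hom
    intro l l' hll
    apply Subtype.ext
    have h3 : ∀ k u, l.1 (Pi.single k u) = l'.1 (Pi.single k u) := by
      intro k u
      obtain ⟨g, hg⟩ := QuotientGroup.mk_surjective (e.symm k)
      have h4 : (Pi.single k u : Fin n → U) =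
          rg e U g (Pi.single (e ((1 : D) : D ⧸ kerA h)) u) := by
        funext k'
        show _ = (Pi.single (e ((1 : D) : D ⧸ kerA h)) u : Fin n → U) (e (g⁻¹ • e.symm k'))
        by_cases hk : k' = k
        · subst hk
          have h5 : e (g⁻¹ • e.symm k') = e ((1 : D) : D ⧸ kerA h) := by
            congr 1
            rw [← hg]
            show ((g⁻¹ * g : D) : D ⧸ kerA h) = _
            rw [inv_mul_cancel]
          rw [h5, Pi.single_eq_same, Pi.single_eq_same]
        · have h5 : e (g⁻¹ • e.symm k') ≠ e ((1 : D) : D ⧸ kerA h) := by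
            intro h6
            apply hk
            apply e.symm.injective
            have h7 : g⁻¹ • e.symm k' = ((1 : D) : D ⧸ kerA h) := e.injective h6
            rw [inv_smul_eq_iff] at h7
            rw [h7, ← hg]
            show ((g * 1 : D) : D ⧸ kerA h) = _
            rw [mul_one]
          rw [Pi.single_eq_of_ne hk, Pi.single_eq_of_ne h5]
      rw [h4, l.2, l'.2]
      exact DFunLike.congr_fun hll u
    refine AddMonoidHom.ext fun f => ?_
    have h5 : f = ∑ k, Pi.single k (f k) := (Finset.univ_sum_single f).symm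
    rw [h5, map_sum, map_sum]
    exact Finset.sum_congr rfl fun k _ => h3 k _
  -- the conclusion
  have bC := mn_le hB hc hUB _ ((Fin n → U) ⧸ A) γ actC smC h2C rfl
  have e1 := mn_card_sub A
  have e2 : Nat.card (Fin n → U) = Nat.card U ^ n := by
    rw [Nat.card_fun, Nat.card_eq_fintype_card (α := Fin n), Fintype.card_fin]
  rw [cA, e2] at e1
  rw [zA, dA] at key
  have pC : 0 < Nat.card (invD γ) := mn_pos
  have pR : 0 < Nat.card (invD (rg e U)) := mn_pos
  have pQ : 0 < Nat.card ((Fin n → U) ⧸ A) := Nat.card_pos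
  have pU : 0 < Nat.card U := Nat.card_pos
  -- `card U ^ (2 n) * dR ≤ zR`
  have b1 : Nat.card U ^ (2 * n) * Nat.card (invD (rg e U)) ≤
      Nat.card {x : D → Fin n → U // Z1 F (rg e U) x} := by
    refine le_trans ?_ bR
    rw [pow_succ]
    exact Nat.mul_le_mul_left _ dR
  generalize Nat.card {x : D → Fin n → U // Z1 F (rg e U) x} = zR at *
  generalize Nat.card {x : D → U // Z1 F υ x} = zU at *
  generalize Nat.card {x : D → (Fin n → U) ⧸ A // Z1 F γ x} = zC at *
  generalize Nat.card (invD (rg e U)) = dR' at *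
  generalize Nat.card (invD υ) = dU at *
  generalize Nat.card (invD γ) = dC at *
  generalize Nat.card ((Fin n → U) ⧸ A) = nC at *
  generalize Nat.card U = nU at *
  refine Nat.le_of_mul_le_mul_right (c := nC ^ 2 * dC * dR') ?_
    (Nat.mul_pos (Nat.mul_pos (pow_pos pQ 2) pC) pR)
  calc nU ^ 2 * dU * (nC ^ 2 * dC * dR') = (nU * nC) ^ 2 * dR' * (dU * dC) := by ring
    _ = nU ^ (2 * n) * dR' * (dU * dC) := by rw [← e1, ← pow_mul, mul_comm n 2]
    _ ≤ zR * (dU * dC) := Nat.mul_le_mul_right _ b1
    _ = zU * zC * dR' := key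
    _ ≤ zU * (nC ^ 2 * dC) * dR' := Nat.mul_le_mul_right _ (Nat.mul_le_mul_left _ bC)
    _ = zU * (nC ^ 2 * dC * dR') := by ring

end main

end Pool.Agent.Work.MP_787500_nt.EU
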