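import Mathlib
import Pool.Agent.Work.MP_787500_nt.EU.Defs
import Pool.Agent.Work.MP_787500_nt.KR.F06
import Pool.Agent.Work.MP_787500_nt.KR.ADefs
import Pool.Agent.Work.MP_787500_nt.GP.F01_Card

/-!
# The number of elements of a self-annihilating local condition

`U` is killed by 2 and self-dual, with `card U ^ a * card (invD υ)` cocycles (`a = 2` at the place 2, `a = 1` at the odd places).
A group of cocycles that is its own annihilator has `X` elements with `card X ^ 2 = card U ^ (a + 1)`.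
-/

set_option autoImplicit false
set_option linter.unusedSectionVars false

namespace Pool.Agent.Work.MP_787500_nt.EU

open Pool.Agent.Work.MP_787500_nt.GP (A0 half hf hf_zero hf_add hf_inj hf_two eq_hf smul_hf IsAct d0 d1 d2
  tw cup11 cup02 perpL card_perp)
open Pool.Agent.Work.MP_787500_nt.KR (FSys LocH LDual Pair Smooth Z1 Z2 B2 Sm1 Sm2 z1s b1s mem_z1s
  cup11_Z2 inv_anti f06_left d0_Z1)

section fix

variable {D : Type*} [Group D] {S : FSys D} {χ : D → ℤ_[2]} {U : Type*} [AddCommGroup U]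
  {υ : D → U → U} {B : U →+ U →+ A0}

/-- the invariants -/
def fixD (h : IsAct υ) : AddSubgroup U where
  carrier := {u | ∀ g, υ g u = u}
  add_mem' := by
    intro a b ha hb g
    rw [h.add, ha, hb]
  zero_mem' := fun g => h.zero g
  neg_mem' := by
    intro a ha g
    rw [h.neg, ha]

theorem mem_fixD {h : IsAct υ} {u : U} : u ∈ fixD h ↔ ∀ g, υ g u = u := Iff.rfl

theorem card_b1s [Finite U] (h : IsAct υ) :
    Nat.card U = Nat.card (fixD h) * Nat.card (b1s h) := by
  let f : U →+ (D → U) := AddMonoidHom.mk' (d0 υ) (fun u u' => by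
    funext g
    show υ g (u + u') - (u + u') = (υ g u - u) + (υ g u' - u')
    rw [h.add]
    abel)
  have h1 : f.ker = fixD h := by
    ext u
    constructor
    · intro hu g
      have h3 : υ g u - u = 0 := congrFun (AddMonoidHom.mem_ker.1 hu) g
      exact sub_eq_zero.1 h3
    · intro hu
      rw [AddMonoidHom.mem_ker]
      funext g
      show υ g u - u = 0
      rw [mem_fixD.1 hu g, sub_self]
  have h3 : f.range = b1s h := by
    ext x
    exact ⟨fun ⟨u, hu⟩ => ⟨u, hu.symm⟩, fun ⟨u, hu⟩ => ⟨u, hu.symm⟩⟩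
  rw [← h1, ← h3, AddSubgroup.card_eq_card_quotient_mul_card_addSubgroup f.ker,
    Nat.card_congr (QuotientAddGroup.quotientKerEquivRange f).toEquiv, mul_comm]

/-- the invariants of a self-dual module -/
theorem card_fixD [Finite U] (hodd : ∀ g, (2 : ℤ_[2]) ∣ χ g - 1) (hp : Pair S χ υ υ B)
    (h2 : ∀ u : U, u + u = 0) : Nat.card (fixD hp.act) = Nat.card (invD υ) := by
  have h1 : ∀ u u', ∃ a, B u u' = hf a := fun u u' => eq_hf (by
    rw [← map_add, h2, map_zero])
  choose L hL using h1
  let ψ : U → (U →+ ZMod 2) := fun u => AddMonoidHom.mk' (L u) (fun x y => hf_inj (by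
    rw [hf_add, ← hL, ← hL, ← hL, map_add]))
  have hψ : ∀ u u', hf (ψ u u') = B u u' := fun u u' => (hL u u').symm
  have hinj : Function.Injective ψ := by
    intro u u' h
    rw [← sub_eq_zero]
    refine hp.nd _ fun w => ?_
    rw [map_sub, AddMonoidHom.sub_apply, ← hψ, ← hψ, h, sub_self]
  have hfin : Finite (U →+ ZMod 2) := Finite.of_injective
    (fun l : U →+ ZMod 2 => (l : U → ZMod 2)) DFunLike.coe_injective
  have hcard : Nat.card (U →+ ZMod 2) ≤ Nat.card U := by
    have h3 := GP.card_hom_le U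
    have := h3.1
    refine (Nat.card_le_card_of_injective (fun l : U →+ ZMod 2 =>
      ((AddMonoidHom.mk' hf hf_add : ZMod 2 →+ A0).comp l)) ?_).trans h3.2
    intro l l' h
    ext u
    exact hf_inj (DFunLike.congr_fun h u)
  have hbij : Function.Bijective ψ := by
    have := Fintype.ofFinite U
    have := Fintype.ofFinite (U →+ ZMod 2)
    rw [Fintype.bijective_iff_injective_and_card]
    refine ⟨hinj, le_antisymm (Fintype.card_le_of_injective ψ hinj) ?_⟩
    rw [Nat.card_eq_fintype_card, Nat.card_eq_fintype_card] at hcard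
    exact hcard
  have hact : ∀ g u u', ψ (υ g u) (υ g u') = ψ u u' := fun g u u' => hf_inj (by
    rw [hψ, hp.eqv, ← hψ, smul_hf (hodd g)])
  have hmem : ∀ u, u ∈ fixD hp.act ↔ ψ u ∈ invD υ := by
    intro u
    constructor
    · intro hu g u'
      conv_lhs => rw [← mem_fixD.1 hu g]
      exact hact g u u'
    · intro hu g
      apply hinj
      ext u'
      obtain ⟨w, rfl⟩ : ∃ w, υ g w = u' := ⟨υ g⁻¹ u', by
        rw [← hp.act.mul, mul_inv_cancel, hp.act.one]⟩
      rw [hact, mem_invD.1 hu]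
  refine Nat.card_congr (Equiv.ofBijective (fun u => ⟨ψ u.1, (hmem _).1 u.2⟩) ⟨?_, ?_⟩)
  · intro u u' h
    exact Subtype.ext (hinj (congrArg Subtype.val h))
  · rintro ⟨l, hl⟩
    obtain ⟨u, rfl⟩ := hbij.2 l
    exact ⟨⟨u, (hmem u).2 hl⟩, rfl⟩

end fix

section lag

variable {D : Type*} [Group D] {S : FSys D} {χ : D → ℤ_[2]} {inv : (D → D → A0) → A0} {U : Type*}
  [AddCommGroup U] [Finite U] {υ : D → U → U} {B : U →+ U →+ A0}

theorem card_lag (hL : LocH S χ inv) (hp : Pair S χ υ υ B) (hld : LDual S inv υ υ B)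
    (h2 : ∀ u : U, u + u = 0) (hsymm : ∀ u u', B u u' = B u' u) {a : ℕ}
    (hz : Nat.card {x : D → U // Z1 S υ x} = Nat.card U ^ a * Nat.card (invD υ))
    {X : AddSubgroup (D → U)}
    (hX : ∀ x, x ∈ X ↔ Z1 S υ x ∧ ∀ y ∈ X, inv (cup11 υ B x y) = 0) :
    Nat.card X ^ 2 = Nat.card U ^ (a + 1) := by
  have hflip : B.flip = B := by
    ext u u'
    exact hsymm u' u
  have hanti : ∀ x y, Z1 S υ x → Z1 S υ y → inv (cup11 υ B x y) = -inv (cup11 υ B y x) := by
    intro x y hx hy
    rw [inv_anti hL hp hx hy, hflip]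
  let P : z1s S hp.act →+ z1s S hp.act →+ A0 := AddMonoidHom.mk'
    (fun x => AddMonoidHom.mk' (fun y => inv (cup11 υ B x.1 y.1)) (fun y y' => by
      rw [← hL.add _ _ (cup11_Z2 hp x.2 y.2) (cup11_Z2 hp x.2 y'.2)]
      congr 1
      funext s t
      show B (x.1 s) (υ s (y.1 t + y'.1 t)) = _
      rw [hp.act.add, map_add]
      rfl)) (fun x x' => by
      ext y
      show inv _ = inv _ + inv _
      rw [← hL.add _ _ (cup11_Z2 hp x.2 y.2) (cup11_Z2 hp x'.2 y.2)]
      congr 1
      funext s t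
      show B (x.1 s + x'.1 s) (υ s (y.1 t)) = _
      rw [map_add]
      rfl)
  have hP : ∀ x y, P x y = inv (cup11 υ B x.1 y.1) := fun x y => rfl
  have hfin : Finite (z1s S hp.act) := hld.fin
  have hle : X ≤ z1s S hp.act := fun x hx => ((hX x).1 hx).1
  let X' : AddSubgroup (z1s S hp.act) := X.addSubgroupOf (z1s S hp.act)
  have cX : Nat.card X' = Nat.card X :=
    Nat.card_congr (AddSubgroup.addSubgroupOfEquivOfLe hle).toEquiv
  have key := card_perp P X' fun x hx => by
    refine (hX x.1).2 ⟨x.2, fun y hy => ?_⟩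
    exact hx ⟨y, hle hy⟩
  have h3 : perpL P X' = X' := by
    ext y
    constructor
    · intro hy
      refine (hX y.1).2 ⟨y.2, fun x hx => ?_⟩
      rw [hanti _ _ y.2 (hle hx), neg_eq_zero]
      exact hy ⟨x, hle hx⟩ hx
    · intro hy x hx
      rw [hP, hanti _ _ x.2 y.2, neg_eq_zero]
      exact ((hX y.1).1 hy).2 x.1 hx
  have h4 : Nat.card (perpL P.flip ⊤) = Nat.card (b1s hp.act) := by
    have hb : b1s hp.act ≤ z1s S hp.act := by
      rintro x ⟨m, rfl⟩
      exact d0_Z1 hp.act hp.sm m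
    rw [← Nat.card_congr (AddSubgroup.addSubgroupOfEquivOfLe hb).toEquiv]
    refine Nat.card_congr (Equiv.subtypeEquivRight fun x => ?_)
    constructor
    · intro hx
      exact hld.one x.1 x.2 fun y hy => hx ⟨y, hy⟩ trivial
    · rintro ⟨m, hm⟩ y -
      show inv (cup11 υ B x.1 y.1) = 0
      have hm' : x.1 = d0 υ m := hm
      rw [hm']
      exact f06_left hL hp m y.2
  rw [h3, h4, cX] at key
  have h5 := card_b1s hp.act
  have h6 := card_fixD (S := S) hL.char.odd hp h2
  have h7 : Nat.card (z1s S hp.act) = Nat.card U ^ a * Nat.card (invD υ) := hz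
  have hpos : 0 < Nat.card (invD υ) := by
    have hfh : Finite (U →+ ZMod 2) := Finite.of_injective
      (fun l : U →+ ZMod 2 => (l : U → ZMod 2)) DFunLike.coe_injective
    exact Nat.card_pos
  rw [h6] at h5
  rw [h7] at key
  refine Nat.eq_of_mul_eq_mul_right hpos ?_
  calc Nat.card X ^ 2 * Nat.card (invD υ) = Nat.card X * Nat.card X * Nat.card (invD υ) := by ring
    _ = Nat.card U ^ a * Nat.card (invD υ) * (Nat.card (invD υ) * Nat.card (b1s hp.act)) := by
        rw [key]
        ring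
    _ = Nat.card U ^ (a + 1) * Nat.card (invD υ) := by
        rw [← h5]
        ring

/-- the dimension of a self-annihilating subspace -/
theorem finrank_lag {F : Type*} [Field F] [Finite F] {n : ℕ} {υ : D → (Fin n → F) → (Fin n → F)}
    {B : (Fin n → F) →+ (Fin n → F) →+ A0} (hL : LocH S χ inv) (hp : Pair S χ υ υ B)
    (hld : LDual S inv υ υ B) (h2 : ∀ u : Fin n → F, u + u = 0)
    (hsymm : ∀ u u', B u u' = B u' u) {a : ℕ}
    (hz : Nat.card {x : D → Fin n → F // Z1 S υ x} = Nat.card (Fin n → F) ^ a * Nat.card (invD υ))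
    {X : Submodule F (D → Fin n → F)}
    (hX : ∀ x, x ∈ X ↔ Z1 S υ x ∧ ∀ y ∈ X, inv (cup11 υ B x y) = 0) :
    2 * Module.finrank F X = (a + 1) * n := by
  have h1 := card_lag hL hp hld h2 hsymm hz (X := X.toAddSubgroup) hX
  have hfin : Finite (z1s S hp.act) := hld.fin
  have hX' : Finite X := Finite.of_injective
    (fun x : X => (⟨x.1, ((hX x.1).1 x.2).1⟩ : z1s S hp.act)) (fun x y h =>
      Subtype.ext (congrArg (fun z : z1s S hp.act => z.1) h))
  have hF : Module.Finite F X := Module.Finite.of_finite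
  have h3 : Nat.card X = Nat.card F ^ Module.finrank F X := Module.natCard_eq_pow_finrank
  have h4 : Nat.card (Fin n → F) = Nat.card F ^ n := by
    rw [Nat.card_fun, Nat.card_eq_fintype_card (α := Fin n), Fintype.card_fin]
  have h5 : Nat.card X.toAddSubgroup = Nat.card X := rfl
  rw [h5, h3, h4, ← pow_mul, ← pow_mul] at h1
  have h6 : 1 < Nat.card F := Finite.one_lt_card
  have h7 := Nat.pow_right_injective h6 h1
  rw [mul_comm 2, h7]
  ring

end lag

end Pool.Agent.Work.MP_787500_nt.EU
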